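import Pool.Agent.Run7.h969.HP.Defs3
import Pool.Agent.Run7.h811.WQ.InitQ

/-!
Galilean boosts: solutions on open sets of times, paths, data.
-/

set_option autoImplicit false

open MeasureTheory Set Filter Topology
open scoped ContDiff ENNReal ComplexConjugate

namespace Pool.Agent.Run7.h811.HP

open H459R3.NS Pool.Agent.Run7 Pool.Agent.Run7.h782.GD Pool.Agent.Run7.h782.GS
open Pool.Agent.Run7.h782.WS Pool.Agent.Run7.h744.GS Pool.Agent.Run7.h744.WS
open Pool.Agent.Run7.h969.WS Pool.Agent.Run7.h811.WS Pool.Agent.Run7.h782.WQ Pool.Agent.Run7.h811.WQ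
open Pool.Agent.Run7.h969.HP

/-- Galilean boosts, started at the time `-s`. -/
theorem boost {ν : ℝ} {I : Set ℝ} (hI : IsOpen I) {u : ℝ → V → V} {p : ℝ → V → ℝ}
    (h : SolOn ν I u p) (m : V) (s : ℝ) :
    SolOn ν I (fun t x => m + u t (x - (s + t) • m)) (fun t x => p t (x - (s + t) • m)) := by
  have hmap : ContDiff ℝ ∞ (fun z : ℝ × V => ((z.1, z.2 - (s + z.1) • m) : ℝ × V)) := by fun_prop
  have hmt : MapsTo (fun z : ℝ × V => ((z.1, z.2 - (s + z.1) • m) : ℝ × V)) (I ×ˢ univ)
      (I ×ˢ univ) := fun z hz => ⟨hz.1, mem_univ _⟩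
  have hp1 : ∀ t, ∀ i j x, pd j (fun y => (m + u t (y - (s + t) • m)) i) x
      = pd j (fun y => u t y i) (x - (s + t) • m) := by
    intro t i j x
    have e : (fun y => (m + u t (y - (s + t) • m)) i)
        = fun y => m i + (fun y => u t y i) (y - (s + t) • m) := by
      funext y; rfl
    rw [e, h32.GD.pd_const_add' (fun y => (fun y => u t y i) (y - (s + t) • m))]
    exact h32.GD.pd_shift (fun y => u t y i) _ _ _
  refine ⟨?_, ?_, ?_, ?_, ?_, ?_⟩
  · exact contDiffOn_const.add (h.smooth_u.comp hmap.contDiffOn hmt)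
  · exact h.smooth_p.comp hmap.contDiffOn hmt
  · intro t ht i x
    show m + u t (x + Pi.single i 1 - (s + t) • m) = m + u t (x - (s + t) • m)
    rw [add_sub_right_comm, h.per_u t ht i]
  · intro t ht i x
    show p t (x + Pi.single i 1 - (s + t) • m) = p t (x - (s + t) • m)
    rw [add_sub_right_comm, h.per_p t ht i]
  · intro t ht x
    simp_rw [hp1]
    exact h.divfree t ht _
  · intro t ht x i
    set f : ℝ → V → ℝ := fun s y => u s y i with hfd
    set F : ℝ × V → ℝ := fun z => f z.1 z.2 with hF
    set y : V := x - (s + t) • m with hy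
    have hmem : I ×ˢ (univ : Set V) ∈ 𝓝 (t, y) :=
      prod_mem_nhds (hI.mem_nhds ht) Filter.univ_mem
    have hFs : ContDiffOn ℝ ∞ F (I ×ˢ univ) := contDiffOn_pi.1 h.smooth_u i
    have hd : DifferentiableAt ℝ F (t, y) := (hFs.contDiffAt hmem).differentiableAt (by simp)
    have hcurve : HasDerivAt (fun r : ℝ => ((r, x - (s + r) • m) : ℝ × V)) (1, -m) t := by
      refine (hasDerivAt_id t).prodMk ?_
      have h1 : HasDerivAt (fun r : ℝ => s + r) 1 t := by
        simpa using (hasDerivAt_id t).const_add s
      have := (h1.smul_const m).const_sub x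
      simpa using this
    have h1 : HasDerivAt (fun r => m i + F (r, x - (s + r) • m)) (fderiv ℝ F (t, y) (1, -m)) t :=
      (hd.hasFDerivAt.comp_hasDerivAt (x := t) (f := fun r : ℝ => ((r, x - (s + r) • m) : ℝ × V))
        hcurve).const_add _
    have h2 : deriv (fun r => (m + u r (x - (s + r) • m)) i) t = fderiv ℝ F (t, y) (1, -m) :=
      h1.deriv
    have hdt : deriv (fun r => u r y i) t = fderiv ℝ F (t, y) (1, 0) := by
      have hc : HasDerivAt (fun r : ℝ => ((r, y) : ℝ × V)) (1, 0) t :=
        (hasDerivAt_id t).prodMk (hasDerivAt_const t y)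
      exact (hd.hasFDerivAt.comp_hasDerivAt (x := t) (f := fun r : ℝ => ((r, y) : ℝ × V)) hc).deriv
    have hpdj : ∀ j, pd j (f t) y = fderiv ℝ F (t, y) (0, Pi.single j 1) := by
      intro j
      have hc : HasFDerivAt (fun z : V => ((t, z) : ℝ × V)) (ContinuousLinearMap.inr ℝ ℝ V) y :=
        hasFDerivAt_prodMk_right t y
      have h3 : HasFDerivAt (f t) ((fderiv ℝ F (t, y)).comp (ContinuousLinearMap.inr ℝ ℝ V)) y :=
        hd.hasFDerivAt.comp y hc
      unfold pd
      rw [h3.fderiv]
      rfl
    have e1 : fderiv ℝ F (t, y) (1, -m)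
        = deriv (fun r => u r y i) t - ∑ j, m j * pd j (f t) y := by
      have a1 : ((1, -m) : ℝ × V) = (1, 0) - ∑ j, m j • ((0, Pi.single j 1) : ℝ × V) := by
        refine Prod.ext ?_ ?_
        · simp [Prod.fst_sum]
        · simp only [Prod.snd_sub, Prod.snd_sum, Prod.smul_snd, zero_sub, neg_inj]
          conv_lhs => rw [← Finset.univ_sum_single m]
          refine Finset.sum_congr rfl fun j _ => ?_
          rw [← Pi.single_smul]; simp
      rw [a1, map_sub, map_sum, hdt]
      congr 1
      refine Finset.sum_congr rfl fun j _ => ?_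
      rw [map_smul, hpdj, smul_eq_mul]
    have hp2 : ∀ j, pd j (pd j (fun y => (m + u t (y - (s + t) • m)) i)) x
        = pd j (pd j (fun y => u t y i)) y := by
      intro j
      have : pd j (fun y => (m + u t (y - (s + t) • m)) i)
          = fun z => pd j (fun y => u t y i) (z - (s + t) • m) := funext fun z => hp1 t i j z
      rw [this]
      exact h32.GD.pd_shift (pd j (fun y => u t y i)) _ _ _
    have hpp : pd i (fun x => p t (x - (s + t) • m)) x = pd i (p t) y := h32.GD.pd_shift _ _ _ _
    have hmom := h.momentum t ht y i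
    rw [h2, e1, hpp]
    simp_rw [hp1, hp2]
    have e2 : ∀ j, (m + u t (x - (s + t) • m)) j * pd j (fun y => u t y i) (x - (s + t) • m)
        = m j * pd j (f t) y + u t y j * pd j (fun y => u t y i) y := by
      intro j
      rw [Pi.add_apply, add_mul]
    rw [Finset.sum_congr rfl fun j _ => e2 j, Finset.sum_add_distrib]
    linarith

/-! ### Integrals of periodic functions with values in a normed space -/

theorem per_spanE {E : Type*} [NormedAddCommGroup E] [NormedSpace ℝ E] {f : V → E} (hf : Per f)
    (g : Submodule.span ℤ (Set.range (Pi.basisFun ℝ (Fin 3)))) (x : V) : f (g +ᵥ x) = f x := by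
  obtain ⟨v, hv⟩ := g
  have key : ∀ v ∈ Submodule.span ℤ (Set.range (Pi.basisFun ℝ (Fin 3))), ∀ x, f (v + x) = f x := by
    intro v hv
    induction hv using Submodule.span_induction with
    | mem v hv =>
      obtain ⟨i, rfl⟩ := hv
      intro x
      rw [Pi.basisFun_apply, add_comm]
      exact hf i x
    | zero => intro x; rw [zero_add]
    | add a b _ _ ha hb => intro x; rw [add_assoc, ha, hb]
    | smul n a _ ha =>
      intro x
      induction n using Int.induction_on generalizing x with
      | zero => rw [zero_smul, zero_add]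
      | succ k ih => rw [add_smul, one_smul, add_assoc, ih, ha]
      | pred k ih =>
        rw [sub_smul, one_smul]
        have h1 := ha ((-(k : ℤ)) • a - a + x)
        have e1 : a + ((-(k : ℤ)) • a - a + x) = (-(k : ℤ)) • a + x := by abel
        rw [e1, ih] at h1
        exact h1.symm
  exact key v hv x

theorem dom_ae : ZSpan.fundamentalDomain (Pi.basisFun ℝ (Fin 3)) =ᵐ[volume] cube := by
  have h1 : ZSpan.fundamentalDomain (Pi.basisFun ℝ (Fin 3))
      = Set.pi univ fun _ : Fin 3 => Ico (0 : ℝ) 1 := by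
    ext x
    simp [ZSpan.mem_fundamentalDomain]
  have h2 : cube = Icc (0 : V) 1 := rfl
  rw [h1, h2]
  exact Measure.univ_pi_Ico_ae_eq_Icc (μ := fun _ : Fin 3 => (volume : Measure ℝ))
    (f := (0 : V)) (g := (1 : V))

theorem dom_inv : VAddInvariantMeasure (Submodule.span ℤ (Set.range (Pi.basisFun ℝ (Fin 3)))) V
    (volume : Measure V) := ⟨fun g s _ => measure_preimage_add volume (g : V) s⟩

theorem dom_fund' (h : V) :
    IsAddFundamentalDomain (Submodule.span ℤ (Set.range (Pi.basisFun ℝ (Fin 3))))
      ((fun x : V => x - h) ⁻¹' ZSpan.fundamentalDomain (Pi.basisFun ℝ (Fin 3)))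
      (volume : Measure V) := by
  have hD : IsAddFundamentalDomain (Submodule.span ℤ (Set.range (Pi.basisFun ℝ (Fin 3))))
      (ZSpan.fundamentalDomain (Pi.basisFun ℝ (Fin 3))) (volume : Measure V) :=
    ZSpan.isAddFundamentalDomain _ _
  have hmp : MeasurePreserving (fun x : V => x - h) volume volume := measurePreserving_sub_right _ h
  refine hD.preimage_of_equiv hmp.quasiMeasurePreserving (e := id) Function.bijective_id ?_
  intro g x
  simp only [id]
  show (g +ᵥ x) - h = g +ᵥ (x - h)
  rw [Submodule.vadd_def, Submodule.vadd_def, vadd_eq_add, vadd_eq_add]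
  abel

theorem int_shiftE {E : Type*} [NormedAddCommGroup E] [NormedSpace ℝ E] {f : V → E} (hf : Per f)
    (h : V) : ∫ x in cube, f (x + h) = ∫ x in cube, f x := by
  have := dom_inv
  have hD : IsAddFundamentalDomain (Submodule.span ℤ (Set.range (Pi.basisFun ℝ (Fin 3))))
      (ZSpan.fundamentalDomain (Pi.basisFun ℝ (Fin 3))) (volume : Measure V) :=
    ZSpan.isAddFundamentalDomain _ _
  have h1 : ∫ x in ZSpan.fundamentalDomain (Pi.basisFun ℝ (Fin 3)), f x
      = ∫ x in (fun x : V => x - h) ⁻¹' ZSpan.fundamentalDomain (Pi.basisFun ℝ (Fin 3)), f x :=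
    hD.setIntegral_eq (dom_fund' h) (per_spanE hf)
  have hmp2 : MeasurePreserving (fun x : V => x + h) volume volume := measurePreserving_add_right _ h
  have h2 := hmp2.setIntegral_preimage_emb (measurableEmbedding_addRight h) f
    ((fun x : V => x - h) ⁻¹' ZSpan.fundamentalDomain (Pi.basisFun ℝ (Fin 3)))
  have h3 : (fun x : V => x + h) ⁻¹' ((fun x : V => x - h) ⁻¹'
      ZSpan.fundamentalDomain (Pi.basisFun ℝ (Fin 3)))
      = ZSpan.fundamentalDomain (Pi.basisFun ℝ (Fin 3)) := by
    ext x; simp
  rw [h3] at h2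
  rw [← setIntegral_congr_set dom_ae, ← setIntegral_congr_set dom_ae, h2, h1]

/-- Integrability of a shifted periodic function. -/
theorem intOn_shift {f : V → ℝ} (hf : Per f) (h : V) (hi : IntegrableOn f cube) :
    IntegrableOn (fun x => f (x + h)) cube := by
  have := dom_inv
  have hD : IsAddFundamentalDomain (Submodule.span ℤ (Set.range (Pi.basisFun ℝ (Fin 3))))
      (ZSpan.fundamentalDomain (Pi.basisFun ℝ (Fin 3))) (volume : Measure V) :=
    ZSpan.isAddFundamentalDomain _ _
  have h0 : IntegrableOn f (ZSpan.fundamentalDomain (Pi.basisFun ℝ (Fin 3))) :=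
    (integrableOn_congr_set_ae dom_ae).2 hi
  have h1 : IntegrableOn f
      ((fun x : V => x - h) ⁻¹' ZSpan.fundamentalDomain (Pi.basisFun ℝ (Fin 3))) :=
    (hD.integrableOn_iff (dom_fund' h) (per_spanE hf)).1 h0
  have hmp2 : MeasurePreserving (fun x : V => x + h) volume volume := measurePreserving_add_right _ h
  have h2 := (hmp2.integrableOn_comp_preimage (measurableEmbedding_addRight h)
    (f := f) (s := (fun x : V => x - h) ⁻¹'
      ZSpan.fundamentalDomain (Pi.basisFun ℝ (Fin 3)))).2 h1
  have h3 : (fun x : V => x + h) ⁻¹' ((fun x : V => x - h) ⁻¹'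
      ZSpan.fundamentalDomain (Pi.basisFun ℝ (Fin 3)))
      = ZSpan.fundamentalDomain (Pi.basisFun ℝ (Fin 3)) := by
    ext x; simp
  rw [h3] at h2
  exact (integrableOn_congr_set_ae dom_ae).1 h2

/-- The Fourier coefficients of a shifted function. -/
theorem fr_shift {f : V → ℝ} (hf : Per f) (a : V) (k : K3) :
    fr (fun x => f (x + a)) k = ee k a * fr f k := by
  unfold fr fc
  have hper : Per fun x : V => ee (-k) x * ((f x : ℝ) : ℂ) := fun j x => by
    show ee (-k) (x + Pi.single j 1) * ((f (x + Pi.single j 1) : ℝ) : ℂ) = _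
    rw [ee_per (-k) j x, hf j x]
  have h1 := int_shiftE hper a
  rw [← h1, ← integral_const_mul]
  refine integral_congr_ae (Eventually.of_forall fun x => ?_)
  show ee (-k) x * ((f (x + a) : ℝ) : ℂ) = ee k a * (ee (-k) (x + a) * ((f (x + a) : ℝ) : ℂ))
  rw [ee_add]
  have h2 : ee k a * ee (-k) a = 1 := by
    rw [← ee_add_left, add_neg_cancel, ee_zero]
  calc ee (-k) x * ((f (x + a) : ℝ) : ℂ)
      = (ee k a * ee (-k) a) * (ee (-k) x * ((f (x + a) : ℝ) : ℂ)) := by rw [h2, one_mul]
    _ = _ := by ring

/-! ### Paths and data -/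

theorem path_of {m : V} {w : ℝ → V → V} (hw : PathM m w) :
    Path (fun r y => w r (y + r • m) - m) where
  smooth := by
    have h1 : ContDiff ℝ ∞ (fun z : ℝ × V => ((z.1, z.2 + z.1 • m) : ℝ × V)) := by fun_prop
    exact (hw.smooth.comp h1).sub contDiff_const
  per := fun t j x => by
    show w t (x + Pi.single j 1 + t • m) - m = w t (x + t • m) - m
    rw [add_right_comm, hw.per t j]
  divfree := fun t x => by
    rw [← hw.divfree t (x + t • m)]
    refine Finset.sum_congr rfl fun i _ => ?_
    have e : (fun y => (w t (y + t • m) - m) i)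
        = fun y => -(m i) + (fun y => w t y i) (y - (-(t • m))) := by
      funext y
      rw [sub_neg_eq_add, Pi.sub_apply]
      ring
    rw [e, h32.GD.pd_const_add' (fun y => (fun y => w t y i) (y - (-(t • m)))),
      h32.GD.pd_shift (fun y => w t y i), sub_neg_eq_add]
  mean := fun t i => by
    have hc : Continuous fun x => w t x i := by
      have h3 := hw.smooth.comp (contDiff_const.prodMk contDiff_id : ContDiff ℝ ∞
        fun z : V => ((t, z) : ℝ × V))
      exact (contDiff_pi.1 h3 i).continuous
    have hper : Per fun x => w t x i := fun j x => by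
      show w t (x + Pi.single j 1) i = w t x i
      rw [hw.per t j]
    have h1 := int_shiftE hper (t • m)
    have := cube_finite
    have hci : IntegrableOn (fun x => w t (x + t • m) i) cube :=
      integrableOn_cube (hc.comp (continuous_id.add continuous_const))
    have e : ∀ x, (w t (x + t • m) - m) i = w t (x + t • m) i - m i := fun x => rfl
    simp_rw [e]
    rw [integral_sub hci (integrable_const _), h1, hw.mean t i]
    simp only [integral_const, measureReal_restrict_apply_univ, smul_eq_mul]
    rw [Measure.real, volume_cube]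
    simp

/-- The shifted datum without its mean. -/
noncomputable def sft (a : V) (c : Cf) : Cf := fun k => if k = 0 then 0 else ee k a • c k

theorem sft_zero (a : V) (c : Cf) : sft a c 0 = 0 := if_pos rfl

theorem sft_ne (a : V) (c : Cf) {k : K3} (hk : k ≠ 0) : sft a c k = ee k a • c k := if_neg hk

theorem sft_herm {a : V} {c : Cf} (h : Herm c) : Herm (sft a c) := by
  intro k i
  by_cases hk : k = 0
  · subst hk
    rw [neg_zero, sft_zero]
    simp
  · rw [sft_ne a c (neg_ne_zero.2 hk), sft_ne a c hk, Pi.smul_apply, Pi.smul_apply, h k i, ee_neg,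
      smul_eq_mul, smul_eq_mul, map_mul]

theorem kd_smul' (k : K3) (z : ℂ) (v : C3) : kd k (z • v) = z * kd k v := by
  unfold kd
  rw [Finset.mul_sum]
  refine Finset.sum_congr rfl fun j _ => ?_
  rw [Pi.smul_apply, smul_eq_mul]
  ring

theorem sft_div {a : V} {c : Cf} (h : Dv c) : Dv (sft a c) := by
  intro k
  by_cases hk : k = 0
  · subst hk
    rw [sft_zero]
    simp [kd]
  · rw [sft_ne a c hk, kd_smul', h k, mul_zero]

theorem str_shift {R : Fin 3 → Fin 3 → V → ℝ} (h : Str R) (a : V) :
    Str (fun i j x => R i j (x + a)) where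
  per := fun i j l x => by
    show R i j (x + Pi.single l 1 + a) = R i j (x + a)
    rw [add_right_comm, h.per i j l]
  sym := fun i j x => h.sym i j _
  int := fun i j => intOn_shift (h.per i j) a (h.int i j)

theorem prj_smul' (k : K3) (z : ℂ) (v : C3) : prj k (z • v) = z • prj k v := by
  funext i
  unfold prj
  rw [kd_smul', Pi.smul_apply, Pi.smul_apply, smul_eq_mul, smul_eq_mul]
  ring

theorem isDiv_shift {R : Fin 3 → Fin 3 → V → ℝ} {c : Cf} (hR : Str R) (h : IsDiv R c) (a : V) :
    IsDiv (fun i j x => R i j (x + a)) (sft a c) := by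
  intro k hk
  rw [sft_ne a c hk, h k hk]
  unfold dvr
  have e : (fun i => ∑ j, (k j : ℂ) * fr (fun x => R i j (x + a)) k)
      = ee k a • fun i => ∑ j, (k j : ℂ) * fr (R i j) k := by
    funext i
    rw [Pi.smul_apply, smul_eq_mul, Finset.mul_sum]
    refine Finset.sum_congr rfl fun j _ => ?_
    rw [fr_shift (hR.per i j)]
    ring
  rw [e, prj_smul', smul_comm]

end Pool.Agent.Run7.h811.HP
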