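import Pool.Agent.Run7.h811.HP.LocF
import Pool.Agent.Run7.h811.HP.Boost

/-!
Piece LocP of the project HP: from the iteration in coefficients to fields, on a short interval,
for all means, with closeness in Orlicz spaces.
-/

set_option autoImplicit false

open MeasureTheory Set Filter Topology
open scoped ContDiff ENNReal ComplexConjugate

namespace Pool.Agent.Run7.h811.HP

open H459R3.NS Pool.Agent.Run7 Pool.Agent.Run7.h782.GD Pool.Agent.Run7.h782.GS
open Pool.Agent.Run7.h782.WS Pool.Agent.Run7.h744.GS Pool.Agent.Run7.h744.WS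
open Pool.Agent.Run7.h969.WS Pool.Agent.Run7.h811.WS Pool.Agent.Run7.h782.WQ Pool.Agent.Run7.h811.WQ
open Pool.Agent.Run7.h969.HP

/-- **Piece LocP.** -/
theorem locP (hIter : StmIterP) (hTgt : StmTgtF) (hPhys : StmPhysO) (hD1 : StmD1S) : StmLocP := by
  intro ν hν m w hw T ε hT hε
  have hw' := path_of hw
  obtain ⟨τ₀, hτ₀, htgt⟩ := hTgt ν hν _ hw' T ε hT hε
  refine ⟨min τ₀ 1, lt_min hτ₀ one_pos,
    fun τ hτ hττ s hs c hcH hcV hc0 R hStr hDiv Q hQ hRQ Φ hΦ δ hδ => ?_⟩
  have hττ0 : τ < τ₀ := hττ.trans_le (min_le_left _ _)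
  have hτ1 : τ < 1 := hττ.trans_le (min_le_right _ _)
  set τ' : ℝ := (τ + τ₀) / 2 with hτ'
  have h1 : τ < τ' := by rw [hτ']; linarith
  have h2 : τ' ≤ τ₀ := by rw [hτ']; linarith
  obtain ⟨f, U, hf, hf0, hTg, hclose⟩ := htgt τ' (hτ.trans h1) h2 s hs
  have hRQ' : ∀ n i j, IntegrableOn (fun x => |R i j (x + s • m)| ^ Q n) cube := fun n i j => by
    refine intOn_shift (f := fun x => |R i j x| ^ Q n) (fun l x => ?_) _ (hRQ n i j)
    show |R i j (x + Pi.single l 1)| ^ Q n = |R i j x| ^ Q n
    rw [hStr.per i j l x]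
  obtain ⟨r, R', hdat, -⟩ := hD1 (sft (s • m) c) _ Q (sft_herm hcH) (sft_div hcV) (sft_zero _ _)
    (str_shift hStr _) (isDiv_shift hStr hDiv _) hQ hRQ'
  obtain ⟨b, hb, hblim, hbd, hsq, -, hLQ, hL2, -, hPhi, -⟩ :=
    hIter f hf ν hν U hTg Q _ r hdat _ gauge_cube' Φ hΦ δ hδ
  obtain ⟨p0, hp0⟩ := hPhys ν τ' b (csolO_of hb hf0)
  have hp := boost isOpen_Ioo hp0 m s
  have hbt := fun (t : ℝ) (ht : 0 < t) => pos_facts hb ht
  have hbi : ∀ t, 0 < t → ∀ i, Summable fun k => b t k i := fun t ht i =>
    Summable.of_norm (Summable.of_nonneg_of_le (fun _ => norm_nonneg _)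
      (fun k => norm_le_pi_norm (b t k) i) (hbt t ht).1)
  have hcf := cont_fld hb
  -- the coefficients with shifted time
  set b' : ℝ → Cf := fun r => b (r - s) with hb'
  have hb't : ∀ t, b' (s + t) = b t := fun t => by
    show b (s + t - s) = b t
    rw [add_sub_cancel_left]
  have hfld' : ∀ t, fld b' (s + t) = fld b t := fun t => by
    unfold fld
    rw [hb't]
  have hbi' : ∀ t, 0 < t → ∀ i, Summable fun k => b' (s + t) k i := fun t ht i => by
    rw [hb't]
    exact hbi t ht i
  have hfr : ∀ t, 0 < t → ∀ i k, fr (fun x => (m + fld b t (x - (s + t) • m)) i) k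
      = (if k = 0 then ((m i : ℝ) : ℂ) else 0) + ee k (-((s + t) • m)) * b t k i := by
    intro t ht i k
    have h3 := fr_field (b := b') (m := m) (t := s + t) (i := i) (hbi' t ht i)
      (by rw [hb't]; exact (hbt t ht).2.1) k
    rw [hfld'] at h3
    unfold ser at h3
    rw [hb't] at h3
    exact h3
  have hsl0 : ∀ t, 0 < t → ∀ i, ContDiff ℝ ∞ fun x => fld b t x i := by
    intro t ht i
    obtain ⟨μ, hμ, C, hC⟩ := (hb t ht).dec
    refine smooth_S (μ := μ) (C := C) hμ fun k => ?_
    have := hC 0 le_rfl k
    simp only [zero_add] at this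
    exact (norm_le_pi_norm (b t k) i).trans this
  have hsl : ∀ t, 0 < t → ∀ i, ContDiff ℝ ∞ fun x => (m + fld b t (x - (s + t) • m)) i := by
    intro t ht i
    have h3 : ContDiff ℝ ∞ fun x : V => x - (s + t) • m := contDiff_id.sub contDiff_const
    exact contDiff_const.add ((hsl0 t ht i).comp h3)
  have hslc : ∀ t, 0 < t → Continuous fun x => m + fld b t (x - (s + t) • m) := fun t ht =>
    continuous_pi fun i => (hsl t ht i).continuous
  have hper0 : ∀ t i, Per fun x => fld b t x i := fun t i j x => by
    show (S (fun k => b t k i) (x + Pi.single j 1)).re = (S (fun k => b t k i) x).re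
    rw [h32.GD.per_S (fun k => b t k i) j x]
  refine ⟨τ', fun t x => m + fld b t (x - (s + t) • m), fun t x => p0 t (x - (s + t) • m),
    h1, hp, ?_, ?_, ?_, ?_, ?_, ?_⟩
  · -- energy
    intro i
    have hcont : ContinuousOn (fun z : ℝ × V => (m + fld b z.1 (z.2 - (s + z.1) • m)) i ^ 2)
        (Ioi 0 ×ˢ univ) := by
      have h3 : ContinuousOn (fun z : ℝ × V => m + fld b z.1 (z.2 - (s + z.1) • m))
          (Ioi 0 ×ˢ univ) := by
        refine continuousOn_const.add ?_
        have h4 : Continuous fun z : ℝ × V => ((z.1, z.2 - (s + z.1) • m) : ℝ × V) := by fun_prop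
        exact hcf.comp h4.continuousOn fun z hz => ⟨hz.1, mem_univ _⟩
      exact ((continuous_apply i).comp_continuousOn h3).pow 2
    have hA : IntegrableOn (fun z : ℝ × V => (m + fld b z.1 (z.2 - (s + z.1) • m)) i ^ 2)
        (Ioc 0 1 ×ˢ cube) := by
      refine strip_int (D := fun t => ‖m‖ ^ 2 + ∑' k, ‖b t k‖ ^ 2)
        (hcont.mono (prod_mono (fun t ht => ht.1) (subset_univ _))) (fun z => sq_nonneg _)
        (fun t ht => integrableOn_cube ((hsl t ht.1 i).continuous.pow 2)) ?_ ?_
      · exact Integrable.add (integrableOn_const (by simp)) hL2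
      · intro t ht
        obtain ⟨hs', _, hz, _⟩ := hbt t ht.1
        have h3 := int_sq_le (b := b') (m := m) (t := s + t) i (by rw [hb't]; exact hs')
          (by rw [hb't]; exact hz)
        rw [hfld', hb't] at h3
        exact h3
    exact hA.mono_set (prod_mono (Ioc_subset_Ioc_right hτ1.le) le_rfl)
  · -- the norms in `L² L^q`
    intro n
    have h3 : ContinuousOn (fun z : ℝ × V => m + fld b z.1 (z.2 - z.1 • m))
        (Ioi 0 ×ˢ univ) := by
      refine continuousOn_const.add ?_
      have h4 : Continuous fun z : ℝ × V => ((z.1, z.2 - z.1 • m) : ℝ × V) := by fun_prop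
      exact hcf.comp h4.continuousOn fun z hz => ⟨hz.1, mem_univ _⟩
    have h4 := lq_clause (hQ n) h3 (fun t ht => (hbt t ht).1) (hLQ n) τ
    refine inLq_of' hslc (hQ n) ?_
    refine h4.congr_fun (fun t _ => ?_) measurableSet_Ioc
    dsimp only
    have hper : Per fun x => ∑ i, |(m + fld b t (x - t • m)) i| ^ (2 * Q n) := by
      intro j x
      refine Finset.sum_congr rfl fun i _ => ?_
      have e : (m + fld b t (x + Pi.single j 1 - t • m)) i = (m + fld b t (x - t • m)) i := by
        rw [Pi.add_apply, Pi.add_apply, add_sub_right_comm]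
        congr 1
        exact hper0 t i j _
      rw [e]
    have h5 := int_shiftE hper (-(s • m))
    rw [← h5]
    congr 1
    refine integral_congr_ae (Eventually.of_forall fun x => ?_)
    dsimp only
    have e : x + -(s • m) - t • m = x - (s + t) • m := by
      rw [add_smul]
      abel
    rw [e]
  · -- the initial values
    intro i ψ hψ hψp
    refine Pool.Agent.Run7.h980.WS.pairH (fun t x => (m + fld b t (x - (s + t) • m)) i)
      (fun k => c k i) (fun t ht => hsl t ht i) (fun t ht j x => ?_) (fun k => ?_) ?_ ψ hψ hψp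
    · show (m + fld b t (x + Pi.single j 1 - (s + t) • m)) i
        = (m + fld b t (x - (s + t) • m)) i
      rw [Pi.add_apply, Pi.add_apply, add_sub_right_comm]
      congr 1
      exact hper0 t i j _
    · have hee : Tendsto (fun t : ℝ => ee k (-((s + t) • m))) (𝓝[>] 0) (𝓝 (ee k (-(s • m)))) := by
        have h3 : Continuous fun t : ℝ => ee k (-((s + t) • m)) :=
          (ee_continuous k).comp (((continuous_const.add continuous_id).smul continuous_const).neg)
        have h4 := h3.tendsto 0
        rw [add_zero] at h4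
        exact h4.mono_left nhdsWithin_le_nhds
      have h3 := (hee.mul ((tendsto_pi_nhds.1 (hblim k)) i)).const_add
        (if k = 0 then ((m i : ℝ) : ℂ) else 0)
      have h4 : (if k = 0 then ((m i : ℝ) : ℂ) else 0) + ee k (-(s • m)) * sft (s • m) c k i
          = c k i := by
        by_cases hk : k = 0
        · subst hk
          rw [if_pos rfl, sft_zero, Pi.zero_apply, mul_zero, add_zero, hc0]
        · rw [if_neg hk, sft_ne _ _ hk, zero_add, Pi.smul_apply, smul_eq_mul, ← mul_assoc,
            ← ee_add, neg_add_cancel]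
          have h5 : ee k 0 = 1 := by simp [ee, ph]
          rw [h5, one_mul]
      rw [h4] at h3
      refine h3.congr' ?_
      filter_upwards [self_mem_nhdsWithin] with t ht
      exact (hfr t ht i k).symm
    · obtain ⟨C, hC⟩ := hbd
      refine ⟨‖m‖ + |C|, fun t ht ht1 k => ?_⟩
      have hl : 0 ≤ len k := h782.GD.len_nonneg k
      have h3 : (1 : ℝ) ≤ (1 + len k) ^ 2 := by nlinarith
      rw [hfr t ht i k]
      have h4 : ‖(if k = 0 then ((m i : ℝ) : ℂ) else 0)‖ ≤ ‖m‖ := by
        split_ifs
        · rw [Complex.norm_real]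
          exact norm_le_pi_norm m i
        · rw [norm_zero]
          exact norm_nonneg _
      have h5 : ‖ee k (-((s + t) • m)) * b t k i‖ ≤ |C| * (1 + len k) ^ 2 := by
        rw [norm_mul, norm_ee, one_mul]
        refine (norm_le_pi_norm (b t k) i).trans ((hC t ht ht1 k).trans ?_)
        exact mul_le_mul_of_nonneg_right (le_abs_self C) (by positivity)
      refine (norm_add_le _ _).trans ?_
      have h6 : ‖m‖ * 1 ≤ ‖m‖ * (1 + len k) ^ 2 := mul_le_mul_of_nonneg_left h3 (norm_nonneg _)
      rw [add_mul]
      linarith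
  · -- the mean
    intro t ht i
    have h3 := hfr t ht.1 i 0
    rw [h32.GD.fr_zero_eq, (hbt t ht.1).2.2.1, Pi.zero_apply, mul_zero, add_zero, if_pos rfl] at h3
    exact_mod_cast h3
  · -- the bound in time
    refine ⟨fun t => ‖m‖ + ∑' k, ‖b t k‖, fun t ht x i => ?_, ?_⟩
    · obtain ⟨hs', _, _⟩ := hbt t ht.1
      show |m i + fld b t (x - (s + t) • m) i| ≤ _
      refine (abs_add_le _ _).trans (add_le_add ?_ ?_)
      · rw [← Real.norm_eq_abs]
        exact norm_le_pi_norm m i
      · refine (Complex.abs_re_le_norm _).trans ((norm_S_le (hbi t ht.1 i) _).trans ?_)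
        exact Summable.tsum_le_tsum (fun k => norm_le_pi_norm _ i) (hbi t ht.1 i).norm hs'
    · have h3 : Tendsto (fun t : ℝ => Real.sqrt t * ‖m‖) (𝓝[>] 0) (𝓝 0) := by
        have h4 : Tendsto (fun t : ℝ => Real.sqrt t * ‖m‖) (𝓝 0) (𝓝 (Real.sqrt 0 * ‖m‖)) :=
          (Real.continuous_sqrt.tendsto 0).mul_const _
        rw [Real.sqrt_zero, zero_mul] at h4
        exact h4.mono_left nhdsWithin_le_nhds
      have h5 := h3.add hsq
      rw [add_zero] at h5
      refine h5.congr fun t => ?_
      ring
  · -- closeness to the path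
    refine ⟨fun t => ∑' k, ‖b t k - U t k‖, fun t => tsum_nonneg fun _ => norm_nonneg _,
      fun t ht x i => ?_, ?_⟩
    · have ht0 : 0 < t := ht.1
      set y : V := x - (s + t) • m with hy
      set w' : ℝ → V → V := fun r y => w r (y + r • m) - m with hw'd
      have hwy : w (s + t) x i = m i + w' (s + t) y i := by
        have e : y + (s + t) • m = x := by
          rw [hy]
          abel
        show w (s + t) x i = m i + (w (s + t) (y + (s + t) • m) i - m i)
        rw [e]
        ring
      have hsp : SP (fun z => w' (s + t) z i) := by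
        refine ⟨?_, fun j z => by rw [hw'.per (s + t) j z]⟩
        have h3 := hw'.smooth.comp (contDiff_const.prodMk contDiff_id : ContDiff ℝ ∞
          fun z : V => ((s + t, z) : ℝ × V))
        exact contDiff_pi.1 h3 i
      have hfrw : Summable (fr (fun z => w' (s + t) z i)) := (rap_fr hsp).summable
      have hre : w' (s + t) y i = (S (fr (fun z => w' (s + t) z i)) y).re := by
        rw [S_fr hsp, Complex.ofReal_re]
      have e1 : (m + fld b t y) i - w (s + t) x i
          = (S (fun k => b t k i - fr (fun z => w' (s + t) z i) k) y).re := by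
        rw [hwy, hre, Pi.add_apply]
        have e2 : S (fun k => b t k i - fr (fun z => w' (s + t) z i) k) y
            = S (fun k => b t k i) y - S (fr (fun z => w' (s + t) z i)) y := by
          unfold S
          rw [← (summable_term (hbi t ht0 i) y).tsum_sub (summable_term hfrw y)]
          exact tsum_congr fun k => by ring
        rw [e2, Complex.sub_re]
        show m i + (S (fun k => b t k i) y).re - _ = _
        ring
      show |(m + fld b t y) i - w (s + t) x i| ≤ _
      rw [e1]
      have hsd : Summable fun k => b t k i - fr (fun z => w' (s + t) z i) k :=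
        (hbi t ht0 i).sub hfrw
      refine (Complex.abs_re_le_norm _).trans ((norm_S_le hsd _).trans ?_)
      -- summability of the differences
      obtain ⟨A, hA, hAk⟩ := hTg.maj 0 t
      have hUs : Summable fun k => ‖U t k‖ :=
        Summable.of_nonneg_of_le (fun _ => norm_nonneg _) (fun k => by
          have := hAk t ⟨ht0.le, le_rfl⟩ k
          rwa [pow_zero, one_mul] at this) hA
      have hbU : Summable fun k => ‖b t k - U t k‖ :=
        Summable.of_nonneg_of_le (fun _ => norm_nonneg _) (fun k => norm_sub_le _ _)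
          ((hbt t ht0).1.add hUs)
      refine Real.tsum_le_of_sum_le (fun _ => norm_nonneg _) fun A => ?_
      have h5 : ∀ k, ‖b t k i - fr (fun z => w' (s + t) z i) k‖
          ≤ ‖U t k - vf (w' (s + t)) k‖ + ‖b t k - U t k‖ := by
        intro k
        have h6 : ‖b t k i - fr (fun z => w' (s + t) z i) k‖ ≤ ‖b t k - vf (w' (s + t)) k‖ :=
          norm_le_pi_norm (b t k - vf (w' (s + t)) k) i
        refine h6.trans ?_
        have h7 : b t k - vf (w' (s + t)) k
            = (U t k - vf (w' (s + t)) k) + (b t k - U t k) := by abel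
        rw [h7]
        exact norm_add_le _ _
      refine (Finset.sum_le_sum fun k _ => h5 k).trans ?_
      rw [Finset.sum_add_distrib]
      exact add_le_add (hclose t ⟨ht0.le, ht.2.trans h1.le⟩ A)
        (hbU.sum_le_tsum A fun _ _ => norm_nonneg _)
    · exact (lintegral_mono_set (Ioc_subset_Ioc_right hτ1.le)).trans hPhi

end Pool.Agent.Run7.h811.HP
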