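import Pool.Agent.Run7.h969.HP.Defs
import Pool.Agent.Run7.h811.WQ.InitQ
import Pool.Agent.Run7.h980.WS.PairH

/-!
Piece LocF of the project HP: from the iteration in coefficients to fields, on a short interval.
-/

set_option autoImplicit false

open MeasureTheory Set Filter Topology
open scoped ContDiff ENNReal ComplexConjugate

namespace Pool.Agent.Run7.h811.HP

open H459R3.NS Pool.Agent.Run7 Pool.Agent.Run7.h782.GD Pool.Agent.Run7.h782.GS
open Pool.Agent.Run7.h782.WS Pool.Agent.Run7.h744.GS Pool.Agent.Run7.h744.WS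
open Pool.Agent.Run7.h969.WS Pool.Agent.Run7.h811.WS Pool.Agent.Run7.h782.WQ Pool.Agent.Run7.h811.WQ
open Pool.Agent.Run7.h969.HP

theorem gauge_cube' : Gauge (fun x => x ^ 3) where
  zero := by norm_num
  nonneg x hx := by positivity
  conv := convexOn_pow 3
  small := by
    have h : Tendsto (fun x : ℝ => x) (𝓝[>] 0) (𝓝 0) := nhdsWithin_le_nhds
    refine h.congr' ?_
    filter_upwards [self_mem_nhdsWithin] with x hx
    have hx' : x ≠ 0 := ne_of_gt hx
    field_simp

/-- facts for positive times -/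
theorem pos_facts {ν : ℝ} {f b : ℝ → Cf}
    (hb : ∀ τ : ℝ, 0 < τ → FSo ν (fun t => f (t + τ)) (fun t => b (t + τ))) {t : ℝ} (ht : 0 < t) :
    (Summable fun k => ‖b t k‖) ∧ Herm (b t) ∧ b t 0 = 0 ∧ Dv (b t) := by
  have H := hb (t / 2) (by positivity)
  have hhalf : t / 2 + t / 2 = t := by ring
  obtain ⟨μ, hμ, C, hC⟩ := H.dec
  have h0 : (0 : ℝ) ≤ t / 2 := by positivity
  refine ⟨?_, ?_, ?_, ?_⟩
  · refine Summable.of_nonneg_of_le (fun _ => norm_nonneg _) (fun k => ?_)
      ((h32.GD.summable_exp hμ).mul_left C)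
    have := hC (t / 2) h0 k
    simpa only [hhalf] using this
  · have := H.herm (t / 2) h0
    simpa only [hhalf] using this
  · have := H.zero (t / 2) h0
    simpa only [hhalf] using this
  · have := H.div (t / 2) h0
    simpa only [hhalf] using this

theorem csolO_of {ν τ' : ℝ} {f b : ℝ → Cf}
    (hb : ∀ τ : ℝ, 0 < τ → FSo ν (fun t => f (t + τ)) (fun t => b (t + τ)))
    (hf : ∀ t, t ≤ τ' → f t = 0) : CSolO ν τ' b where
  dec := fun s t hs _ => by
    obtain ⟨μ, hμ, C, hC⟩ := (hb s hs).dec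
    refine ⟨μ, hμ, C, fun r hr k => ?_⟩
    have := hC (r - s) (by linarith [hr.1]) k
    simpa only [sub_add_cancel] using this
  zero := fun t ht => (pos_facts hb ht.1).2.2.1
  herm := fun t ht => (pos_facts hb ht.1).2.1
  div := fun t ht => (pos_facts hb ht.1).2.2.2
  der := fun t ht k => by
    have H := ((hb (t / 2) (half_pos ht.1)).der (t / 2) (half_pos ht.1).le k).hasDerivAt
      (Ici_mem_nhds (half_pos ht.1))
    have hhalf : t / 2 + t / 2 = t := by ring
    simp only [hhalf, hf t ht.2.le, Pi.zero_apply, add_zero] at H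
    have e1 : t - t / 2 = t / 2 := by ring
    rw [← e1] at H
    have H2 := H.comp_sub_const t (t / 2)
    have e2 : (fun x => b (x - t / 2 + (t - t / 2)) k) = fun x => b x k := by
      funext x
      congr 2
      ring
    rw [e2] at H2
    exact H2

theorem cont_fld {ν : ℝ} {f b : ℝ → Cf}
    (hb : ∀ τ : ℝ, 0 < τ → FSo ν (fun t => f (t + τ)) (fun t => b (t + τ))) :
    ContinuousOn (fun z : ℝ × V => fld b z.1 z.2) (Ioi 0 ×ˢ univ) := by
  refine continuousOn_pi.2 fun i => ?_
  rintro ⟨t₀, x₀⟩ ⟨ht₀, _⟩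
  have ht₀' : (0 : ℝ) < t₀ := ht₀
  have ht : 0 < t₀ / 2 := half_pos ht₀'
  have H := hb (t₀ / 2) ht
  obtain ⟨μ, hμ, C, hC⟩ := H.dec
  have hG : h32.GD.Gd 0 (fun t k => b (t + t₀ / 2) k i) := by
    refine ⟨⟨μ, hμ, max C 0, le_max_right _ _, fun t ht k => ?_⟩, fun k => ?_⟩
    · exact ((norm_le_pi_norm _ i).trans (hC t ht k)).trans
        (mul_le_mul_of_nonneg_right (le_max_left _ _) (Real.exp_pos _).le)
    · exact fun t ht => ((hasDerivWithinAt_pi.1 (H.der t ht k)) i).continuousWithinAt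
  have h1 := h32.GD.contDiffOn_S_zero hG
  have h2 : ContinuousOn (fun z : ℝ × V => S (fun k => b z.1 k i) z.2) (Ici (t₀ / 2) ×ˢ univ) := by
    have h3 : ContinuousOn (fun z : ℝ × V => ((z.1 - t₀ / 2, z.2) : ℝ × V))
        (Ici (t₀ / 2) ×ˢ univ) := by fun_prop
    have h4 := h1.comp h3 (fun z hz => ⟨mem_Ici.2 (sub_nonneg.2 (mem_Ici.1 hz.1)), mem_univ _⟩)
    refine h4.congr fun z _ => ?_
    show _ = S (fun k => b (z.1 - t₀ / 2 + t₀ / 2) k i) z.2
    rw [sub_add_cancel]
  have h6 := h2.continuousAt (x := (t₀, x₀))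
    (prod_mem_nhds (Ici_mem_nhds (half_lt_self ht₀')) univ_mem)
  exact (ContinuousAt.comp (g := Complex.re) Complex.continuous_re.continuousAt h6).continuousWithinAt

theorem gd_const (n : ℕ) : ∀ {c : K3 → ℂ}, h32.GD.Dec (fun _ => c) → h32.GD.Gd n (fun _ => c) := by
  induction n with
  | zero => exact fun h => ⟨h, fun _ => continuousOn_const⟩
  | succ n ih =>
    intro c h
    refine ⟨h, fun _ _ => 0, fun k t _ => hasDerivWithinAt_const _ _ _, ?_⟩
    exact ih (c := fun _ => 0) ⟨1, one_pos, 0, le_rfl, fun t _ k => by simp⟩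

theorem smooth_S {c : K3 → ℂ} {μ C : ℝ} (hμ : 0 < μ)
    (h : ∀ k, ‖c k‖ ≤ C * Real.exp (-(μ * len k))) : ContDiff ℝ ∞ fun x : V => (S c x).re := by
  have hD : h32.GD.Dec (fun _ => c) := ⟨μ, hμ, max C 0, le_max_right _ _, fun t _ k =>
    (h k).trans (mul_le_mul_of_nonneg_right (le_max_left _ _) (Real.exp_pos _).le)⟩
  have h1 := h32.GD.contDiffOn_S_infty (c := fun _ => c) fun n => gd_const n hD
  have h2 := h1.comp (f := fun x : V => (((0 : ℝ), x) : ℝ × V)) (s := univ)
    (contDiff_const.prodMk contDiff_id).contDiffOn (fun x _ => ⟨mem_Ici.2 le_rfl, mem_univ _⟩)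
  exact Complex.reCLM.contDiff.comp (contDiffOn_univ.1 h2)

/-- The norm in `L² L^q` of fields which are continuous in space. -/
theorem inLq_of' {u : ℝ → V → V} (hu : ∀ t, 0 < t → Continuous (u t)) {Q : ℝ} (hQ : 1 ≤ Q)
    {T : ℝ} (h : IntegrableOn
      (fun t => (∫ x in cube, ∑ i, |u t x i| ^ (2 * Q)) ^ (1 / Q)) (Ioc 0 T)) :
    InLq T u (2 * Q) := by
  have hQ0 : 0 < Q := by linarith
  have hcont : ∀ t, 0 < t → Continuous fun x => ∑ i, |u t x i| ^ (2 * Q) := by
    intro t ht
    refine continuous_finsetSum _ fun i _ => ?_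
    exact ((continuous_apply i).comp (hu t ht)).abs.rpow_const fun x => Or.inr (by positivity)
  have hnn : ∀ t x, 0 ≤ ∑ i, |u t x i| ^ (2 * Q) := fun t x =>
    Finset.sum_nonneg fun i _ => Real.rpow_nonneg (abs_nonneg _) _
  have e1 : ∀ t ∈ Ioo 0 T, (∫⁻ x in cube, ENNReal.ofReal (∑ i, |u t x i| ^ (2 * Q))) ^ (2 / (2 * Q))
      = ENNReal.ofReal ((∫ x in cube, ∑ i, |u t x i| ^ (2 * Q)) ^ (1 / Q)) := by
    intro t ht
    rw [← ofReal_integral_eq_lintegral_ofReal (integrableOn_cube (hcont t ht.1))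
      (Eventually.of_forall fun x => hnn t x),
      ENNReal.ofReal_rpow_of_nonneg (integral_nonneg fun x => hnn t x) (by positivity)]
    congr 2
    field_simp
  unfold InLq
  rw [setLIntegral_congr_fun measurableSet_Ioo e1]
  have h1 : IntegrableOn (fun t => (∫ x in cube, ∑ i, |u t x i| ^ (2 * Q)) ^ (1 / Q)) (Ioo 0 T) :=
    h.mono_set Ioo_subset_Ioc_self
  exact h1.lintegral_lt_top.ne

/-- **Piece LocF.** -/
theorem locF (hIter : StmIterF) (hTgt : StmTgtF) (hPhys : StmPhysO) (hD1 : StmD1S) : StmLocF := by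
  intro ν hν w hw T ε hT hε
  obtain ⟨τ₀, hτ₀, htgt⟩ := hTgt ν hν w hw T ε hT hε
  refine ⟨τ₀, hτ₀, fun τ hτ hττ s hs c hcH hcV hc0 R hStr hDiv Q hQ hRQ δ hδ => ?_⟩
  set τ' : ℝ := (τ + τ₀) / 2 with hτ'
  have h1 : τ < τ' := by rw [hτ']; linarith
  have h2 : τ' ≤ τ₀ := by rw [hτ']; linarith
  obtain ⟨f, U, hf, hf0, hTg, hclose⟩ := htgt τ' (hτ.trans h1) h2 s hs
  obtain ⟨r, R', hdat, -⟩ := hD1 c R Q hcH hcV hc0 hStr hDiv hQ hRQ
  obtain ⟨b, hb, hblim, hbd, hsq, -, hLQ, hL2, hcl1, -⟩ :=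
    hIter f hf ν hν U hTg Q c r hdat _ gauge_cube' δ hδ
  obtain ⟨p, hp⟩ := hPhys ν τ' b (csolO_of hb hf0)
  have hbt := fun (t : ℝ) (ht : 0 < t) => pos_facts hb ht
  have hbi : ∀ t, 0 < t → ∀ i, Summable fun k => b t k i := fun t ht i =>
    Summable.of_norm (Summable.of_nonneg_of_le (fun _ => norm_nonneg _)
      (fun k => norm_le_pi_norm (b t k) i) (hbt t ht).1)
  have hcf := cont_fld hb
  have hsl : ∀ t, 0 < t → ∀ i, ContDiff ℝ ∞ fun x => fld b t x i := by
    intro t ht i
    obtain ⟨μ, hμ, C, hC⟩ := (hb t ht).dec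
    refine smooth_S (μ := μ) (C := C) hμ fun k => ?_
    have := hC 0 le_rfl k
    simp only [zero_add] at this
    exact (norm_le_pi_norm (b t k) i).trans this
  have hslc : ∀ t, 0 < t → Continuous (fld b t) := fun t ht =>
    continuous_pi fun i => (hsl t ht i).continuous
  have hfr : ∀ t, 0 < t → ∀ i k, fr (fun x => fld b t x i) k = b t k i := fun t ht i k =>
    h32.GD.fr_S (hbi t ht i) (fun k => (hbt t ht).2.1 k i) k
  refine ⟨τ', fld b, p, h1, hp, ?_, ?_, ?_, ?_, ?_, ?_⟩
  · -- energy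
    intro i
    have hcont : ContinuousOn (fun z : ℝ × V => fld b z.1 z.2 i ^ 2) (Ioi 0 ×ˢ univ) :=
      ((continuous_apply i).comp_continuousOn hcf).pow 2
    have hA : IntegrableOn (fun z : ℝ × V => fld b z.1 z.2 i ^ 2) (Ioc 0 1 ×ˢ cube) := by
      refine strip_int (D := fun t => ∑' k, ‖b t k‖ ^ 2)
        (hcont.mono (prod_mono (fun t ht => ht.1) (subset_univ _))) (fun z => sq_nonneg _)
        (fun t ht => integrableOn_cube ((hsl t ht.1 i).continuous.pow 2)) hL2 ?_
      intro t ht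
      obtain ⟨hs, _, hz, _⟩ := hbt t ht.1
      have h3 := int_sq_le (b := b) (m := 0) (t := t) i hs hz
      have e3 : ∀ x : V, ((0 : V) + fld b t (x - t • (0 : V))) i = fld b t x i := by
        intro x
        rw [smul_zero, sub_zero, zero_add]
      simp only [e3, norm_zero] at h3
      refine h3.trans (le_of_eq ?_)
      rw [zero_pow two_ne_zero, zero_add]
    have hB : IntegrableOn (fun z : ℝ × V => fld b z.1 z.2 i ^ 2) (Icc 1 τ ×ˢ cube) := by
      refine ContinuousOn.integrableOn_compact (isCompact_Icc.prod isCompact_Icc) (hcont.mono ?_)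
      exact prod_mono (fun t ht => lt_of_lt_of_le one_pos ht.1) (subset_univ _)
    refine (hA.union hB).mono_set ?_
    rintro ⟨t, x⟩ ⟨ht, hx⟩
    rcases le_or_gt t 1 with h | h
    · exact Or.inl ⟨⟨ht.1, h⟩, hx⟩
    · exact Or.inr ⟨⟨h.le, ht.2⟩, hx⟩
  · -- the norms in `L² L^q`
    intro n
    have h3 : ContinuousOn (fun z : ℝ × V => (0 : V) + fld b z.1 (z.2 - z.1 • (0 : V)))
        (Ioi 0 ×ˢ univ) := by
      simp only [smul_zero, sub_zero, zero_add]
      exact hcf
    have h4 := lq_clause (hQ n) h3 (fun t ht => (hbt t ht).1) (hLQ n) τ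
    simp only [smul_zero, sub_zero, zero_add] at h4
    exact inLq_of' hslc (hQ n) h4
  · -- the initial values
    intro i ψ hψ hψp
    refine Pool.Agent.Run7.h980.WS.pairH (fun t x => fld b t x i) (fun k => c k i)
      (fun t ht => hsl t ht i) (fun t ht j x => ?_) (fun k => ?_) ?_ ψ hψ hψp
    · show (S (fun k => b t k i) (x + Pi.single j 1)).re = (S (fun k => b t k i) x).re
      rw [h32.GD.per_S (fun k => b t k i) j x]
    · refine ((tendsto_pi_nhds.1 (hblim k)) i).congr' ?_
      filter_upwards [self_mem_nhdsWithin] with t ht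
      exact (hfr t ht i k).symm
    · obtain ⟨C, hC⟩ := hbd
      refine ⟨C, fun t ht ht1 k => ?_⟩
      rw [hfr t ht i k]
      exact (norm_le_pi_norm (b t k) i).trans (hC t ht ht1 k)
  · -- mean zero
    intro t ht i
    have h3 := hfr t ht.1 i 0
    rw [h32.GD.fr_zero_eq, (hbt t ht.1).2.2.1, Pi.zero_apply] at h3
    exact_mod_cast h3
  · -- the bound in time
    refine ⟨fun t => ∑' k, ‖b t k‖, fun t ht x i => ?_, hsq⟩
    obtain ⟨hs, _, _⟩ := hbt t ht.1
    refine (Complex.abs_re_le_norm _).trans ((norm_S_le (hbi t ht.1 i) _).trans ?_)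
    exact Summable.tsum_le_tsum (fun k => norm_le_pi_norm _ i) (hbi t ht.1 i).norm hs
  · -- closeness to the path
    intro t ht x i
    have ht0 : 0 < t := ht.1
    have hsp : SP (fun z => w (s + t) z i) := by
      refine ⟨?_, fun j z => by rw [hw.per (s + t) j z]⟩
      have h3 := hw.smooth.comp (contDiff_const.prodMk contDiff_id : ContDiff ℝ ∞
        fun z : V => ((s + t, z) : ℝ × V))
      exact contDiff_pi.1 h3 i
    have hfrw : Summable (fr (fun z => w (s + t) z i)) := (rap_fr hsp).summable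
    have hre : w (s + t) x i = (S (fr (fun z => w (s + t) z i)) x).re := by
      rw [S_fr hsp, Complex.ofReal_re]
    have e1 : fld b t x i - w (s + t) x i
        = (S (fun k => b t k i - fr (fun z => w (s + t) z i) k) x).re := by
      rw [hre]
      have e2 : S (fun k => b t k i - fr (fun z => w (s + t) z i) k) x
          = S (fun k => b t k i) x - S (fr (fun z => w (s + t) z i)) x := by
        unfold S
        rw [← (summable_term (hbi t ht0 i) x).tsum_sub (summable_term hfrw x)]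
        exact tsum_congr fun k => by ring
      rw [e2, Complex.sub_re]
      rfl
    rw [e1]
    have hsd : Summable fun k => b t k i - fr (fun z => w (s + t) z i) k := (hbi t ht0 i).sub hfrw
    refine (Complex.abs_re_le_norm _).trans ((norm_S_le hsd _).trans ?_)
    refine Real.tsum_le_of_sum_le (fun _ => norm_nonneg _) fun A => ?_
    have h5 : ∀ k, ‖b t k i - fr (fun z => w (s + t) z i) k‖
        ≤ ‖U t k - vf (w (s + t)) k‖ + ‖b t k - U t k‖ := by
      intro k
      have h6 : ‖b t k i - fr (fun z => w (s + t) z i) k‖ ≤ ‖b t k - vf (w (s + t)) k‖ :=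
        norm_le_pi_norm (b t k - vf (w (s + t)) k) i
      refine h6.trans ?_
      have h7 : b t k - vf (w (s + t)) k = (U t k - vf (w (s + t)) k) + (b t k - U t k) := by abel
      rw [h7]
      exact norm_add_le _ _
    refine (Finset.sum_le_sum fun k _ => h5 k).trans ?_
    rw [Finset.sum_add_distrib]
    exact add_le_add (hclose t ⟨ht0.le, ht.2.trans h1.le⟩ A) (hcl1 t ht0 A)

end Pool.Agent.Run7.h811.HP
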